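import Pool.Agent.Lib.MP_39dc45_gt.SP.Main

/-!
# MP_39dc45_gt, Q1: a homotopy equivalence that splits along `Y` but is not simple

The definitions are in `Pool/Agent/Lib/MP_39dc45_gt/Stm.lean`.
-/

open Pool.Agent.Lib.MP_39dc45_gt.SP

namespace Pool.Agent.Results.MP_39dc45_gt.SplitNotSimple

/-- The negated form of the problem, with `p = 5`, `n = 4`, `l = 3`: there is a homotopy equivalence
`h : N → M = T^4 ×_{ℤ/5} S^3` from a closed manifold that splits along `Y` and is not simple. -/
theorem result :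
    ∃ D : Data, D.p = 5 ∧ D.n = 4 ∧ D.l = 3 ∧
      ∃ (N : Type) (_ : TopologicalSpace N) (h : C(N, D.Mfd)),
        IsClosedManifold (D.n + D.l) N ∧ IsHtpyEquiv h ∧ SplitsAlong D.n h D.fixY ∧
          ¬ D.IsSimple h :=
  main

end Pool.Agent.Results.MP_39dc45_gt.SplitNotSimple
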